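import Mathlib

set_option autoImplicit false

/-!
Gauss lemmas for the bound of the degree in all directions (helper72, HB/12 of helper741).
-/

namespace Pool.Agent.N72.HB

open Polynomial

/-- an irreducible polynomial of positive degree over a UFD divides every polynomial with a common root -/
theorem gauss_dvd {R Ω : Type*} [CommRing R] [IsDomain R] [UniqueFactorizationMonoid R] [Field Ω]
    (φ : R →+* Ω) (hφ : Function.Injective φ) (α : Ω) (q g : R[X]) (hq : Irreducible q)
    (hqd : q.natDegree ≠ 0) (hqα : q.eval₂ φ α = 0) (hgα : g.eval₂ φ α = 0) : q ∣ g := by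
  let K := FractionRing R
  let ψ : K →+* Ω := IsFractionRing.lift hφ
  have hψ : ψ.comp (algebraMap R K) = φ := by
    ext r
    exact IsFractionRing.lift_algebraMap hφ r
  have hp : q.IsPrimitive := hq.isPrimitive hqd
  have hqi : Irreducible (q.map (algebraMap R K)) :=
    hp.irreducible_iff_irreducible_map_fraction_map.1 hq
  apply hp.dvd_of_fraction_map_dvd_fraction_map (K := K)
  by_contra h
  obtain ⟨a, b, hab⟩ := (Irreducible.coprime_iff_not_dvd hqi).2 h
  have := congrArg (eval₂ ψ α) hab
  rw [eval₂_add, eval₂_mul, eval₂_mul, eval₂_map, eval₂_map, hψ, hqα, hgα, mul_zero, mul_zero,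
    add_zero, eval₂_one] at this
  exact zero_ne_one this

/-- an irreducible factor with the same value -/
theorem exists_factor {R Ω : Type*} [CommRing R] [IsDomain R] [UniqueFactorizationMonoid R]
    [CommRing Ω] [IsDomain Ω] (ev : R →+* Ω) (P : R) (hP : P ≠ 0) (h : ev P = 0) :
    ∃ G, Irreducible G ∧ G ∣ P ∧ ev G = 0 := by
  revert h
  induction P using WfDvdMonoid.induction_on_irreducible with
  | zero => exact absurd rfl hP
  | unit u hu =>
    intro h
    exact absurd h (hu.map ev).ne_zero
  | mul a i ha hi ih =>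
    intro h
    rw [map_mul, mul_eq_zero] at h
    rcases h with h | h
    · exact ⟨i, hi, dvd_mul_right _ _, h⟩
    · obtain ⟨G, h1, h2, h3⟩ := ih ha h
      exact ⟨G, h1, h2.trans (dvd_mul_left _ _), h3⟩

/-- an irreducible polynomial stays primitive over an algebraically closed field -/
theorem prim_map {R k : Type*} [CommRing R] [IsDomain R] [UniqueFactorizationMonoid R] [Field k]
    [IsAlgClosed k] (φ : R →+* k) (hφ : Function.Injective φ) (G : R[X][X]) (hG : Irreducible G)
    (hGd : G.natDegree ≠ 0) : (G.map (mapRingHom φ)).IsPrimitive := by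
  intro r hr
  by_contra hu
  have hinj : Function.Injective (mapRingHom φ) := Polynomial.map_injective φ hφ
  have hG0 : G.map (mapRingHom φ) ≠ 0 := by
    rw [Ne, Polynomial.map_eq_zero_iff hinj]
    exact hG.ne_zero
  have hr0 : r ≠ 0 := by
    rintro rfl
    rw [C_0, zero_dvd_iff] at hr
    exact hG0 hr
  have hdr : r.degree ≠ 0 := by
    intro h
    exact hu (isUnit_iff_degree_eq_zero.2 h)
  obtain ⟨α, hα⟩ := IsAlgClosed.exists_root r hdr
  have hcoef : ∀ j, (G.coeff j).eval₂ φ α = 0 := by
    intro j
    obtain ⟨s, hs⟩ := (C_dvd_iff_dvd_coeff _ _).1 hr j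
    rw [coeff_map, coe_mapRingHom] at hs
    rw [← eval_map, hs, eval_mul, hα.eq_zero, zero_mul]
  have hlc : G.leadingCoeff ≠ 0 := leadingCoeff_ne_zero.2 hG.ne_zero
  obtain ⟨q, hq, hqd, hqα⟩ := exists_factor (eval₂RingHom φ α) G.leadingCoeff hlc (hcoef _)
  rw [coe_eval₂RingHom] at hqα
  have hqn : q.natDegree ≠ 0 := by
    intro h
    rw [natDegree_eq_zero] at h
    obtain ⟨c, rfl⟩ := h
    rw [eval₂_C] at hqα
    have : c = 0 := hφ (by rw [hqα, map_zero])
    rw [this, C_0] at hq
    exact hq.ne_zero rfl
  have hdvd : C q ∣ G := by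
    rw [C_dvd_iff_dvd_coeff]
    intro j
    exact gauss_dvd φ hφ α q _ hq hqn hqα (hcoef j)
  obtain ⟨H, hH⟩ := hdvd
  rcases hG.isUnit_or_isUnit hH with h | h
  · exact hq.not_isUnit (isUnit_C.1 h)
  · apply hGd
    have : IsUnit H := h
    rw [hH, natDegree_C_mul hq.ne_zero]
    exact natDegree_eq_zero_of_isUnit this

theorem swap_coeff {R : Type*} [CommRing R] (H : R[X][X]) (i j : ℕ) :
    ((Bivariate.swap H).coeff i).coeff j = (H.coeff j).coeff i := by
  induction H using Polynomial.induction_on' with
  | add p q hp hq => rw [map_add, coeff_add, coeff_add, coeff_add, coeff_add, hp, hq]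
  | monomial n a =>
    induction a using Polynomial.induction_on' with
    | add p q hp hq =>
      rw [map_add, map_add, coeff_add, coeff_add, coeff_add, coeff_add, hp, hq]
    | monomial m a =>
      rw [Bivariate.swap_monomial_monomial]
      simp only [coeff_monomial]
      by_cases h1 : m = i <;> by_cases h2 : n = j <;> simp [h1, h2, coeff_monomial]

theorem coeff_natDegree_le_swap {R : Type*} [CommRing R] (H : R[X][X]) (j : ℕ) :
    (H.coeff j).natDegree ≤ (Bivariate.swap H).natDegree := by
  by_cases h : H.coeff j = 0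
  · rw [h, natDegree_zero]; exact Nat.zero_le _
  · apply le_natDegree_of_ne_zero
    intro h2
    have h3 := swap_coeff H (H.coeff j).natDegree j
    rw [h2, coeff_zero] at h3
    exact h (leadingCoeff_eq_zero.1 h3.symm)

theorem swap_natDegree_le {R : Type*} [CommRing R] (H : R[X][X]) (B : ℕ)
    (h : ∀ j, (H.coeff j).natDegree ≤ B) : (Bivariate.swap H).natDegree ≤ B := by
  rw [natDegree_le_iff_coeff_eq_zero]
  intro i hi
  ext j
  rw [swap_coeff, coeff_zero]
  exact coeff_eq_zero_of_natDegree_lt (lt_of_le_of_lt (h j) hi)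

/-- the bound for the degree in the direction `x` -/
theorem dir_bound {k Ω : Type*} [Field k] [Field Ω] [IsAlgClosed Ω] (φ : k[X] →+* Ω)
    (hφ : Function.Injective φ) (G : k[X][X]) (hG : G.IsPrimitive) (B : ℕ)
    (h : ∀ y : Ω, G.eval₂ φ y = 0 → ∃ P : k[X][X], P ≠ 0 ∧ (∀ j, (P.coeff j).natDegree ≤ B) ∧
      P.eval₂ φ y = 0) : (Bivariate.swap G).natDegree ≤ B * G.natDegree := by
  have hG0 : G ≠ 0 := hG.ne_zero
  have key : ∀ H : k[X][X], H ∣ G → (Bivariate.swap H).natDegree ≤ B * H.natDegree := by
    intro H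
    induction H using WfDvdMonoid.induction_on_irreducible with
    | zero => intro h; exact absurd (zero_dvd_iff.1 h) hG0
    | unit u hu =>
      intro _
      have : IsUnit (Bivariate.swap u) := hu.map Bivariate.swap
      rw [natDegree_eq_zero_of_isUnit this]
      exact Nat.zero_le _
    | mul a i ha hi ih =>
      intro hd
      have h1 := ih ((dvd_mul_left _ _).trans hd)
      have hiG : i ∣ G := (dvd_mul_right _ _).trans hd
      have hin : i.natDegree ≠ 0 := by
        intro h0
        rw [natDegree_eq_zero] at h0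
        obtain ⟨c, rfl⟩ := h0
        exact hi.not_isUnit (isUnit_C.2 (hG c hiG))
      have hidm : (i.map φ).degree ≠ 0 := by
        rw [degree_map_eq_of_injective hφ]
        intro h0
        exact hin (natDegree_eq_of_degree_eq_some h0)
      obtain ⟨y, hy⟩ := IsAlgClosed.exists_root (i.map φ) hidm
      have hyi : i.eval₂ φ y = 0 := by rw [← eval_map]; exact hy
      have hyG : G.eval₂ φ y = 0 := by
        obtain ⟨s, hs⟩ := hiG
        rw [hs, eval₂_mul, hyi, zero_mul]
      obtain ⟨P, hP0, hPB, hPy⟩ := h y hyG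
      obtain ⟨s, hs⟩ := gauss_dvd φ hφ y i P hi hin hyi hPy
      have hs0 : s ≠ 0 := by
        rintro rfl
        rw [mul_zero] at hs
        exact hP0 hs
      have hsw : ∀ p : k[X][X], p ≠ 0 → Bivariate.swap p ≠ 0 := fun p hp h0 =>
        hp ((map_eq_zero_iff Bivariate.swap Bivariate.swap.injective).1 h0)
      have h2 : (Bivariate.swap i).natDegree ≤ B := by
        have h3 := swap_natDegree_le P B hPB
        rw [hs, map_mul, natDegree_mul (hsw i hi.ne_zero) (hsw s hs0)] at h3
        omega
      rw [map_mul, natDegree_mul (hsw i hi.ne_zero) (hsw a ha), natDegree_mul hi.ne_zero ha]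
      have h4 : 1 ≤ i.natDegree := Nat.one_le_iff_ne_zero.2 hin
      nlinarith
  exact key G dvd_rfl

end Pool.Agent.N72.HB
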