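import Mathlib
import Pool.Agent.N741.HB.Stm
import Pool.Agent.N72.HB.Gau

set_option autoImplicit false

/-!
Bounded degree in all directions (helper72, HB/12 of helper741).
-/

namespace Pool.Agent.N72.HB

open Polynomial Pool.Agent.N741.HB

/-- the polynomial in two variables -/
noncomputable def toP {k : Type*} [Field k] (B : ℕ) (P : ℕ → ℕ → k) : k[X][X] :=
  ∑ i ∈ Finset.range (B + 1), ∑ j ∈ Finset.range (B + 1), monomial j (monomial i (P i j))

theorem toP_coeff {k : Type*} [Field k] (B : ℕ) (P : ℕ → ℕ → k) (j : ℕ) :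
    (toP B P).coeff j = if j < B + 1 then ∑ i ∈ Finset.range (B + 1), monomial i (P i j) else 0 := by
  unfold toP
  rw [finsetSum_coeff]
  have h : ∀ i ∈ Finset.range (B + 1), (∑ j' ∈ Finset.range (B + 1), monomial j' (monomial i (P i j'))).coeff j =
      if j < B + 1 then monomial i (P i j) else 0 := by
    intro i _
    rw [finsetSum_coeff]
    simp only [coeff_monomial, Finset.sum_ite_eq', Finset.mem_range]
  rw [Finset.sum_congr rfl h]
  split_ifs
  · rfl
  · exact Finset.sum_const_zero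

theorem toP_ne {k : Type*} [Field k] {B : ℕ} {P : ℕ → ℕ → k} {i j : ℕ} (hi : i ≤ B) (hj : j ≤ B)
    (h : P i j ≠ 0) : toP B P ≠ 0 := by
  intro h0
  have h1 := toP_coeff B P j
  rw [h0, if_pos (by omega), coeff_zero] at h1
  have h2 := congrArg (fun p => coeff p i) h1
  simp only [coeff_zero, finsetSum_coeff, coeff_monomial, Finset.sum_ite_eq', Finset.mem_range] at h2
  rw [if_pos (by omega)] at h2
  exact h h2.symm

theorem toP_deg {k : Type*} [Field k] (B : ℕ) (P : ℕ → ℕ → k) (j : ℕ) :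
    ((toP B P).coeff j).natDegree ≤ B := by
  rw [toP_coeff]
  split_ifs
  · apply natDegree_sum_le_of_forall_le
    intro i hi
    exact (natDegree_monomial_le _).trans (by have := Finset.mem_range.1 hi; omega)
  · simp

theorem toP_eval {k Ω : Type*} [Field k] [Field Ω] (φ : k →+* Ω) (B : ℕ) (P : ℕ → ℕ → k) (x y : Ω) :
    (toP B P).eval₂ (eval₂RingHom φ x) y =
      ∑ i ∈ Finset.range (B + 1), ∑ j ∈ Finset.range (B + 1), φ (P i j) * (x ^ i * y ^ j) := by
  unfold toP
  rw [eval₂_finsetSum]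
  refine Finset.sum_congr rfl fun i _ => ?_
  rw [eval₂_finsetSum]
  refine Finset.sum_congr rfl fun j _ => ?_
  rw [eval₂_monomial, coe_eval₂RingHom, eval₂_monomial, mul_assoc]

/-- the variable `b` singled out -/
noncomputable def eqv {d : ℕ} (b : Fin d) :
    MvPolynomial (Fin d) ℤ ≃+* Polynomial (MvPolynomial {c : Fin d // c ≠ b} ℤ) :=
  ((MvPolynomial.renameEquiv ℤ (Equiv.optionSubtypeNe b).symm).trans
    (MvPolynomial.optionEquivLeft ℤ {c : Fin d // c ≠ b})).toRingEquiv

theorem eqv_deg {d : ℕ} (b : Fin d) (p : MvPolynomial (Fin d) ℤ) :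
    (eqv b p).natDegree = p.degreeOf b := by
  rw [MvPolynomial.degreeOf_eq_natDegree]
  rfl

theorem eqv_C {d : ℕ} (b : Fin d) (n : ℤ) : eqv b (MvPolynomial.C n) = C (MvPolynomial.C n) := by
  unfold eqv
  simp

theorem eqv_X_self {d : ℕ} (b : Fin d) : eqv b (MvPolynomial.X b) = X := by
  unfold eqv
  simp

theorem eqv_X_ne {d : ℕ} (b : Fin d) {c : Fin d} (hc : c ≠ b) :
    eqv b (MvPolynomial.X c) = C (MvPolynomial.X ⟨c, hc⟩) := by
  unfold eqv
  simp [Equiv.optionSubtypeNe_symm_apply, hc]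

/-- an embedding with given value at `f` -/
theorem exists_sigma {d : ℕ} {L : Type} [Field L] [CharZero L] (t : Fin d → L) (f : L)
    (ht : AlgebraicIndependent ℤ t)
    (halg : ∀ y : L, ∃ P : Polynomial (MvPolynomial (Fin d) ℤ), P ≠ 0 ∧
      P.eval₂ (MvPolynomial.aeval t).toRingHom y = 0)
    (G : Polynomial (MvPolynomial (Fin d) ℤ)) (hG : Irreducible G) (hGd : G.natDegree ≠ 0)
    (hGf : G.eval₂ (MvPolynomial.aeval t).toRingHom f = 0) (y : AlgebraicClosure L)
    (hy : G.eval₂ ((algebraMap L (AlgebraicClosure L)).comp (MvPolynomial.aeval t).toRingHom) y = 0) :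
    ∃ σ : L →+* AlgebraicClosure L, (∀ c, σ (t c) = algebraMap L _ (t c)) ∧ σ f = y := by
  have hinj : Function.Injective (MvPolynomial.aeval t : MvPolynomial (Fin d) ℤ →ₐ[ℤ] L).toRingHom := ht
  let K0 := FractionRing (MvPolynomial (Fin d) ℤ)
  letI : Algebra K0 L := (IsFractionRing.lift hinj).toAlgebra
  have hK0 : ∀ r : MvPolynomial (Fin d) ℤ, algebraMap K0 L (algebraMap _ K0 r) = MvPolynomial.aeval t r :=
    fun r => IsFractionRing.lift_algebraMap hinj r
  have hcomp : (algebraMap K0 L).comp (algebraMap (MvPolynomial (Fin d) ℤ) K0) =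
      (MvPolynomial.aeval t : MvPolynomial (Fin d) ℤ →ₐ[ℤ] L).toRingHom := RingHom.ext hK0
  have hev : ∀ (P : Polynomial (MvPolynomial (Fin d) ℤ)) (z : L), aeval z (P.map (algebraMap _ K0)) =
      P.eval₂ (MvPolynomial.aeval t : MvPolynomial (Fin d) ℤ →ₐ[ℤ] L).toRingHom z := by
    intro P z
    rw [aeval_def, eval₂_map, hcomp]
  have hint : ∀ z : L, IsIntegral K0 z := by
    intro z
    obtain ⟨P, hP, hPz⟩ := halg z
    have h1 : IsAlgebraic K0 z := ⟨P.map (algebraMap _ K0), by
      rw [Ne, Polynomial.map_eq_zero_iff (IsFractionRing.injective _ K0)]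
      exact hP, by rw [hev]; exact hPz⟩
    exact h1.isIntegral
  have hp : G.IsPrimitive := hG.isPrimitive hGd
  have hGi : Irreducible (G.map (algebraMap _ K0)) := hp.irreducible_iff_irreducible_map_fraction_map.1 hG
  have hdvd : minpoly K0 f ∣ G.map (algebraMap _ K0) := minpoly.dvd K0 f (by rw [hev]; exact hGf)
  have hass := ((minpoly.irreducible (hint f)).dvd_irreducible_iff_associated hGi).1 hdvd
  have hy2 : aeval y (minpoly K0 f) = 0 := by
    obtain ⟨s, hs⟩ := hass.symm.dvd
    have h1 : aeval y (G.map (algebraMap _ K0)) = 0 := by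
      rw [aeval_def, eval₂_map]
      rw [← hy]
      congr 1
      rw [← hcomp, ← RingHom.comp_assoc]
      rfl
    rw [hs, map_mul, h1, zero_mul]
  obtain ⟨σ, hσ⟩ := IntermediateField.exists_algHom_of_splits_of_aeval (F := K0) (E := L)
    (K := AlgebraicClosure L) (fun s => ⟨hint s, IsAlgClosed.splits _⟩) hy2
  refine ⟨σ.toRingHom, fun c => ?_, hσ⟩
  have h1 := hK0 (MvPolynomial.X c)
  rw [MvPolynomial.aeval_X] at h1
  rw [← h1]
  exact σ.commutes _

/-- the bound in the direction `b` -/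
theorem dir {d : ℕ} (B : ℕ) {L : Type} [Field L] [CharZero L] (t : Fin d → L) (f : L)
    (ht : AlgebraicIndependent ℤ t)
    (halg : ∀ y : L, ∃ P : Polynomial (MvPolynomial (Fin d) ℤ), P ≠ 0 ∧
      P.eval₂ (MvPolynomial.aeval t).toRingHom y = 0)
    (G : Polynomial (MvPolynomial (Fin d) ℤ)) (hG : Irreducible G) (hGd : G.natDegree ≠ 0)
    (hGf : G.eval₂ (MvPolynomial.aeval t).toRingHom f = 0) (b : Fin d)
    (hb : ∀ (σ : L →+* AlgebraicClosure L), (∀ c, σ (t c) = algebraMap L _ (t c)) →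
      ∃ P : ℕ → ℕ → AlgebraicClosure L, (∀ i j, IsAlgebraic (IntermediateField.adjoin ℚ
        {x : AlgebraicClosure L | ∃ c, c ≠ b ∧ x = algebraMap L _ (t c)}) (P i j)) ∧
        ne2 B P ∧ ev2 B P (algebraMap L (AlgebraicClosure L) (t b)) (σ f) = 0) (j : ℕ) :
    (G.coeff j).degreeOf b ≤ B * G.natDegree := by
  classical
  set Ω := AlgebraicClosure L with hΩ
  have hinj : Function.Injective (MvPolynomial.aeval t : MvPolynomial (Fin d) ℤ →ₐ[ℤ] L).toRingHom := ht
  set ψ : MvPolynomial (Fin d) ℤ →+* Ω :=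
    (algebraMap L Ω).comp (MvPolynomial.aeval t : MvPolynomial (Fin d) ℤ →ₐ[ℤ] L).toRingHom with hψ
  have hψi : Function.Injective ψ := (algebraMap L Ω).injective.comp hinj
  set kb := IntermediateField.adjoin ℚ {x : Ω | ∃ c, c ≠ b ∧ x = algebraMap L _ (t c)} with hkb
  set kbar := algebraicClosure kb Ω with hkbar
  have : IsAlgClosed kbar := (algebraicClosure.isAlgClosure kb Ω).isAlgClosed
  have hmem : ∀ c : Fin d, c ≠ b → algebraMap L Ω (t c) ∈ kbar := by
    intro c hc
    have h1 : algebraMap L Ω (t c) ∈ kb := IntermediateField.subset_adjoin _ _ ⟨c, hc, rfl⟩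
    rw [hkbar, mem_algebraicClosure_iff]
    exact isAlgebraic_algebraMap (⟨_, h1⟩ : kb)
  set ρ : MvPolynomial {c : Fin d // c ≠ b} ℤ →+* kbar :=
    MvPolynomial.eval₂Hom (Int.castRingHom kbar) (fun c => ⟨algebraMap L Ω (t c.1), hmem c.1 c.2⟩) with hρ
  -- compatibility
  have hcomp : ∀ g : MvPolynomial (Fin d) ℤ,
      (eqv b g).eval₂ ((algebraMap kbar Ω).comp ρ) (algebraMap L Ω (t b)) = ψ g := by
    intro g
    have h : ((eval₂RingHom ((algebraMap kbar Ω).comp ρ) (algebraMap L Ω (t b))).comp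
        (eqv b : MvPolynomial (Fin d) ℤ →+* Polynomial (MvPolynomial {c : Fin d // c ≠ b} ℤ))) = ψ := by
      apply MvPolynomial.ringHom_ext
      · intro n
        simp only [RingHom.comp_apply, RingHom.coe_coe, eqv_C, coe_eval₂RingHom, eval₂_C, hρ, hψ,
          MvPolynomial.coe_eval₂Hom, MvPolynomial.eval₂_C, eq_intCast, map_intCast]
      · intro c
        by_cases hc : c = b
        · subst hc
          simp only [RingHom.comp_apply, RingHom.coe_coe, eqv_X_self, coe_eval₂RingHom, eval₂_X, hψ,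
            AlgHom.toRingHom_eq_coe, MvPolynomial.aeval_X]
        · simp only [RingHom.comp_apply, RingHom.coe_coe, eqv_X_ne b hc, coe_eval₂RingHom, eval₂_C, hρ, hψ,
            MvPolynomial.coe_eval₂Hom, MvPolynomial.eval₂_X, AlgHom.toRingHom_eq_coe,
            MvPolynomial.aeval_X]
          rfl
    exact congrArg (fun F : MvPolynomial (Fin d) ℤ →+* Ω => F g) h
  have hρi : Function.Injective ρ := by
    rw [injective_iff_map_eq_zero]
    intro g hg
    have h3 := hcomp ((eqv b).symm (C g))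
    rw [RingEquiv.apply_symm_apply, eval₂_C, RingHom.comp_apply, hg, map_zero] at h3
    have h4 : (eqv b).symm (C g) = 0 := hψi (by rw [← h3, map_zero])
    rw [EmbeddingLike.map_eq_zero_iff, C_eq_zero] at h4
    exact h4
  -- transcendence
  have hS : (fun c => algebraMap L Ω (t c)) '' {c | c ≠ b} = {x : Ω | ∃ c, c ≠ b ∧ x = algebraMap L _ (t c)} := by
    ext x
    simp only [Set.mem_image, Set.mem_setOf_eq]
    constructor
    · rintro ⟨c, h1, h2⟩; exact ⟨c, h1, h2.symm⟩
    · rintro ⟨c, h1, h2⟩; exact ⟨c, h1, h2.symm⟩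
  have hT0 : AlgebraicIndependent ℤ (fun c => algebraMap L Ω (t c)) :=
    ht.map' (f := IsScalarTower.toAlgHom ℤ L Ω) (algebraMap L Ω).injective
  have : Algebra.IsAlgebraic ℤ ℚ := IsLocalization.isAlgebraic ℚ (nonZeroDivisors ℤ)
  have hT1 : AlgebraicIndependent ℚ (fun c => algebraMap L Ω (t c)) := hT0.extendScalars ℚ
  have hT2 : Transcendental (IntermediateField.adjoin ℚ ((fun c => algebraMap L Ω (t c)) '' {c | c ≠ b}))
      (algebraMap L Ω (t b)) :=
    IntermediateField.transcendental_adjoin_iff.2 (hT1.transcendental_adjoin (s := {c | c ≠ b}) (i := b) (by simp))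
  rw [hS] at hT2
  have hT3 : Transcendental kbar (algebraMap L Ω (t b)) := hT2.algebraicClosure
  set φ : kbar[X] →+* Ω := eval₂RingHom (algebraMap kbar Ω) (algebraMap L Ω (t b)) with hφ
  have hφi : Function.Injective φ := by
    have := transcendental_iff_injective.1 hT3
    exact this
  set e' : Polynomial (MvPolynomial (Fin d) ℤ) ≃+* Polynomial (Polynomial (MvPolynomial {c : Fin d // c ≠ b} ℤ)) :=
    Polynomial.mapEquiv (eqv b) with he'
  have hG'i : Irreducible (e' G) := (MulEquiv.irreducible_iff e').2 hG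
  have hG'd : (e' G).natDegree = G.natDegree := natDegree_map_eq_of_injective (eqv b).injective G
  have hprim := prim_map ρ hρi (e' G) hG'i (by rw [hG'd]; exact hGd)
  have hinj2 : Function.Injective (mapRingHom ρ) := Polynomial.map_injective ρ hρi
  have hG''d : ((e' G).map (mapRingHom ρ)).natDegree = G.natDegree := by
    rw [natDegree_map_eq_of_injective hinj2, hG'd]
  have hev : ∀ y : Ω, ((e' G).map (mapRingHom ρ)).eval₂ φ y = G.eval₂ ψ y := by
    intro y
    have h1 : e' G = G.map (eqv b : MvPolynomial (Fin d) ℤ →+* Polynomial (MvPolynomial {c : Fin d // c ≠ b} ℤ)) := rfl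
    rw [h1, eval₂_map, eval₂_map]
    congr 1
    ext g
    · simp
    · have := hcomp (MvPolynomial.X g)
      rw [← this]
      simp only [RingHom.comp_apply, hφ, coe_mapRingHom, coe_eval₂RingHom, eval₂_map]
      rfl
  have hbound := dir_bound φ hφi _ hprim B (fun y hy => by
    rw [hev] at hy
    obtain ⟨σ, hσ, hσf⟩ := exists_sigma t f ht halg G hG hGd hGf y hy
    obtain ⟨P, hP1, ⟨i0, hi0, j0, hj0, hP2⟩, hP3⟩ := hb σ hσ
    have hPm : ∀ i j, P i j ∈ kbar := fun i j => by
      rw [hkbar, mem_algebraicClosure_iff]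
      exact hP1 i j
    refine ⟨toP B (fun i j => (⟨P i j, hPm i j⟩ : kbar)), toP_ne hi0 hj0 ?_, toP_deg _ _, ?_⟩
    · intro h
      exact hP2 (congrArg Subtype.val h)
    · rw [hφ, toP_eval]
      rw [hσf] at hP3
      exact hP3)
  rw [hG''d] at hbound
  refine le_trans ?_ hbound
  refine le_trans (le_of_eq ?_) (coeff_natDegree_le_swap _ j)
  rw [coeff_map, coe_mapRingHom, natDegree_map_eq_of_injective hρi]
  have h1 : (e' G).coeff j = eqv b (G.coeff j) := by
    have h1 : e' G = G.map (eqv b : MvPolynomial (Fin d) ℤ →+* Polynomial (MvPolynomial {c : Fin d // c ≠ b} ℤ)) := rfl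
    rw [h1, coeff_map]
    rfl
  rw [h1, eqv_deg]

end Pool.Agent.N72.HB
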