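import Mathlib
import Pool.Agent.N741.HB.Stm
import Pool.Agent.N72.HB.Gau
import Pool.Agent.N72.HB.Dir

set_option autoImplicit false

/-!
HB/12: bounded degree over all directions (helper72, for helper741).
-/

namespace Pool.Agent.N72.HB

open Polynomial Pool.Agent.N741.HB

/-- the box of exponents -/
noncomputable def ex {d : ℕ} (M : ℕ) (α : Fin d → Fin (M + 1)) : Fin d →₀ ℕ :=
  Finsupp.equivFunOnFinite.symm (fun b => (α b : ℕ))

theorem ex_apply {d : ℕ} (M : ℕ) (α : Fin d → Fin (M + 1)) (b : Fin d) : ex M α b = α b := rfl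

theorem ex_inj {d : ℕ} (M : ℕ) : Function.Injective (ex M : (Fin d → Fin (M + 1)) → _) := by
  intro α β h
  ext b
  have := congrArg (fun m => m b) h
  simpa [ex_apply] using this

theorem ex_surj {d : ℕ} (M : ℕ) (p : MvPolynomial (Fin d) ℤ) (hp : ∀ b, p.degreeOf b ≤ M)
    (m : Fin d →₀ ℕ) (hm : m ∈ p.support) : ∃ α : Fin d → Fin (M + 1), ex M α = m := by
  refine ⟨fun b => ⟨m b, ?_⟩, ?_⟩
  · exact Nat.lt_succ_of_le (((MvPolynomial.degreeOf_le_iff).1 (hp b)) m hm)
  · ext b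
    rfl

theorem aeval_box {d : ℕ} {L : Type} [Field L] (t : Fin d → L) (M : ℕ) (p : MvPolynomial (Fin d) ℤ)
    (hp : ∀ b, p.degreeOf b ≤ M) :
    MvPolynomial.aeval t p = ∑ α : Fin d → Fin (M + 1), ((p.coeff (ex M α) : ℤ) : L) * ∏ b, t b ^ (α b : ℕ) := by
  classical
  rw [MvPolynomial.aeval_def, MvPolynomial.eval₂_eq']
  have h1 : ∑ α : Fin d → Fin (M + 1), ((p.coeff (ex M α) : ℤ) : L) * ∏ b, t b ^ (α b : ℕ) =
      ∑ m ∈ Finset.univ.image (ex M : (Fin d → Fin (M + 1)) → _), ((p.coeff m : ℤ) : L) * ∏ b, t b ^ (m b) := by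
    rw [Finset.sum_image (fun α _ β _ h => ex_inj M h)]
    rfl
  rw [h1]
  apply Finset.sum_subset_zero_on_sdiff
  · intro m hm
    obtain ⟨α, hα⟩ := ex_surj M p hp m hm
    exact Finset.mem_image.2 ⟨α, Finset.mem_univ _, hα⟩
  · intro m hm
    rw [Finset.mem_sdiff, MvPolynomial.notMem_support_iff] at hm
    rw [hm.2, Int.cast_zero, zero_mul]
  · intro m _
    rfl

/-- **bounded degree over all directions** -/
theorem conv : S_conv := by
  intro d C B L _ _ t f ht halg hP hσ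
  obtain ⟨P, hP, hPd, hPf⟩ := hP
  have hinj : Function.Injective (MvPolynomial.aeval t : MvPolynomial (Fin d) ℤ →ₐ[ℤ] L).toRingHom := ht
  obtain ⟨G, hG, hGP, hGf⟩ := exists_factor
    (eval₂RingHom (MvPolynomial.aeval t : MvPolynomial (Fin d) ℤ →ₐ[ℤ] L).toRingHom f) P hP hPf
  rw [coe_eval₂RingHom] at hGf
  have hGd : G.natDegree ≠ 0 := by
    intro h
    rw [natDegree_eq_zero] at h
    obtain ⟨c, rfl⟩ := h
    rw [eval₂_C] at hGf
    have : c = 0 := hinj (by rw [hGf, map_zero])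
    rw [this, C_0] at hG
    exact hG.ne_zero rfl
  have hGC : G.natDegree ≤ C := (natDegree_le_of_dvd hGP hP).trans hPd
  have hb : ∀ b j, (G.coeff j).degreeOf b ≤ C * (B + 1) := by
    intro b j
    refine (dir B t f ht halg G hG hGd hGf b (hσ b) j).trans ?_
    calc B * G.natDegree ≤ B * C := Nat.mul_le_mul_left _ hGC
      _ ≤ C * (B + 1) := by nlinarith
  have hCM : C ≤ C * (B + 1) := Nat.le_mul_of_pos_right _ (by omega)
  refine ⟨fun α j => (G.coeff j).coeff (ex (C * (B + 1)) α), ?_, ?_⟩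
  · intro h0
    have hlc : G.leadingCoeff ≠ 0 := leadingCoeff_ne_zero.2 hG.ne_zero
    obtain ⟨m, hm⟩ := MvPolynomial.ne_zero_iff.1 hlc
    obtain ⟨α, hα⟩ := ex_surj (C * (B + 1)) G.leadingCoeff (fun b => hb b _) m
      (MvPolynomial.mem_support_iff.2 hm)
    have h1 := congrFun (congrFun h0 α) ⟨G.natDegree, by omega⟩
    simp only [Pi.zero_apply] at h1
    rw [hα] at h1
    exact hm h1
  · rw [Finset.sum_comm]
    have h1 : ∀ j : Fin (C * (B + 1) + 1), ∑ α : Fin d → Fin (C * (B + 1) + 1),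
        (((G.coeff j).coeff (ex (C * (B + 1)) α) : ℤ) : L) * ((∏ b, t b ^ (α b : ℕ)) * f ^ (j : ℕ)) =
        (MvPolynomial.aeval t (G.coeff j)) * f ^ (j : ℕ) := by
      intro j
      rw [aeval_box t _ _ (fun b => hb b j), Finset.sum_mul]
      exact Finset.sum_congr rfl fun α _ => by ring
    rw [Finset.sum_congr rfl fun j _ => h1 j]
    have h2 := eval₂_eq_sum_range' (MvPolynomial.aeval t : MvPolynomial (Fin d) ℤ →ₐ[ℤ] L).toRingHom
      (p := G) (n := C * (B + 1) + 1) (by omega) f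
    rw [hGf] at h2
    rw [Finset.sum_range] at h2
    exact h2.symm

end Pool.Agent.N72.HB
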